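import Mathlib

set_option autoImplicit false
open Set Filter Topology MeasureTheory Metric Complex FourierTransform
open scoped ContDiff ENNReal Real SchwartzMap

namespace Pool.Agent.Results.MP_8ec070_an.Q2

abbrev E := EuclideanSpace ℝ (Fin 2)

/-- The disc multiplier. -/
noncomputable def S0 (f : E → ℂ) : E → ℂ := 𝓕⁻ ((ball (0 : E) 1).indicator (𝓕 f))

/-- The ray maximal function. -/
noncomputable def M0 (φ : E → ℝ) (x : E) : ℝ≥0∞ :=
  ⨆ (w : E) (_ : ‖w‖ = 1) (r : ℝ) (_ : 0 < r),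
    ENNReal.ofReal (2 / r ^ 2) * ∫⁻ s in Ioc (0 : ℝ) r, ENNReal.ofReal (φ (x - s • w) * s)

noncomputable def eq2 : E ≃ᵐ ℝ × ℝ := (MeasurableEquiv.toLp 2 (Fin 2 → ℝ)).symm.trans MeasurableEquiv.finTwoArrow

lemma mp : MeasurePreserving eq2 :=
  (volume_preserving_finTwoArrow ℝ).comp (EuclideanSpace.volume_preserving_symm_measurableEquiv_toLp _)

lemma lprod {g h : ℝ → ℝ≥0∞} (hg : Measurable g) (hh : Measurable h) :
    ∫⁻ x : E, g (x 0) * h (x 1) = (∫⁻ y, g y) * ∫⁻ y, h y := by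
  rw [← lintegral_prod_mul hg.aemeasurable hh.aemeasurable]
  exact mp.lintegral_comp_emb eq2.measurableEmbedding fun z => g z.1 * h z.2

lemma fprod (a b : ℝ → ℂ) (x : E) :
    𝓕⁻ (fun ξ : E => a (ξ 0) * b (ξ 1)) x = 𝓕⁻ a (x 0) * 𝓕⁻ b (x 1) := by
  simp only [Real.fourierInv_eq']
  rw [← integral_prod_mul]
  refine Eq.trans ?_ (mp.integral_comp' fun z => _)
  congr 1; ext ξ
  simp only [smul_eq_mul]
  rw [mul_mul_mul_comm, ← exp_add]
  congr 2
  simp [eq2, PiLp.inner_apply]; ring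

noncomputable def sch {c : ℝ} (b : ContDiffBump c) : 𝓢(ℝ, ℂ) :=
  (b.hasCompactSupport.comp_left ofReal_zero).toSchwartzMap (ofRealCLM.contDiff.comp b.contDiff)

lemma sch_apply {c : ℝ} (b : ContDiffBump c) (t : ℝ) : sch b t = b t := rfl

lemma sch0 {c : ℝ} (b : ContDiffBump c) : 0 < ((𝓕⁻ (sch b) : 𝓢(ℝ, ℂ)) 0).re := by
  rw [SchwartzMap.fourierInv_coe, Real.fourierInv_eq']
  simp only [inner_zero_right, mul_zero, ofReal_zero, zero_mul, exp_zero, one_smul]
  exact (congrArg re (integral_ofReal (f := b))).symm ▸ b.integral_pos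

noncomputable def γ : ContDiffBump (-3 / 4 : ℝ) := ⟨1 / 8, 1 / 4, by norm_num, by norm_num⟩
noncomputable def u : 𝓢(ℝ, ℂ) := 𝓕⁻ (sch γ)
noncomputable def A (s t : ℝ) : ℂ := sch γ ((t - 1) / s) / |s|

lemma As (s : ℝ) : ContDiff ℝ ∞ (A s) := ((sch γ).smooth ⊤ |>.comp (by fun_prop)).div_const _

lemma A0 {s t : ℝ} (h : A s t ≠ 0) : -1 < (t - 1) / s ∧ (t - 1) / s < -1 / 2 := by
  have : (t - 1) / s ∈ ball (-3 / 4 : ℝ) (1 / 4) := by
    rw [← show γ.rOut = 1 / 4 from rfl, ← γ.support_eq]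
    exact fun k => h (by simp [A, sch_apply, k])
  rw [Real.ball_eq_Ioo] at this
  exact ⟨by linarith [this.1], by linarith [this.2]⟩

lemma A1 {s t : ℝ} (h : A s t ≠ 0) (h1 : |s| ≤ 1) : t ∈ Icc (0 : ℝ) 2 := by
  have s0 : s ≠ 0 := fun k => h (by simp [A, k])
  have : |(t - 1) / s| ≤ 1 := abs_le.2 ⟨(A0 h).1.le, by linarith [(A0 h).2]⟩
  rw [abs_div, div_le_one (abs_pos.2 s0)] at this
  have := abs_le.1 (this.trans h1)
  exact ⟨by linarith, by linarith⟩

lemma AF {s : ℝ} (hs : s ≠ 0) (y : ℝ) : 𝓕⁻ (A s) y = exp (2 * π * y * I) * u (s * y) := by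
  rw [u, SchwartzMap.fourierInv_coe, Real.fourierInv_eq', Real.fourierInv_eq',
    ← integral_add_left_eq_self _ 1, ← integral_const_mul]
  have := Measure.integral_comp_mul_left
    (fun t : ℝ => exp ((2 * π * inner ℝ (1 + t) y : ℝ) * I) • A s (1 + t)) s
  rw [← inv_smul_eq_iff₀ (by simpa using hs), abs_inv, inv_inv, ← integral_smul] at this
  rw [← this]
  congr 1; ext t
  have : (|s| : ℝ) ≠ (0 : ℂ) := by simpa using hs
  simp only [A, add_sub_cancel_left, mul_div_cancel_left₀ _ hs, smul_eq_mul, real_smul]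
  rw [← mul_assoc (exp _), ← exp_add, mul_left_comm, mul_div_cancel₀ _ this]
  congr 2
  simp; ring

lemma FA (N : ℕ) (s : ℕ → ℝ) (h : ∀ k, s k ≠ 0 ∧ |s k| ≤ 1) (y : ℝ) :
    𝓕⁻ (fun t => ∑ k ∈ Finset.range N, A (s k) t) y =
      exp (2 * π * y * I) * ∑ k ∈ Finset.range N, u (s k * y) := by
  simp only [Finset.mul_sum, ← AF (h _).1, Real.fourierInv_eq', Finset.smul_sum]
  refine integral_finsetSum _ fun k _ => Continuous.integrable_of_hasCompactSupport
    (by have := (As (s k)).continuous; fun_prop) (HasCompactSupport.intro isCompact_Icc (K := Icc 0 2)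
      fun t ht => ?_)
  rw [by_contra fun j => ht (A1 j (h k).2), smul_zero]

lemma ub : ∃ κ > 0, ∃ ρ > 0, ρ ≤ 1 ∧ ∃ C > 0, (∀ z, |z| ≤ ρ → κ ≤ (u z).re) ∧
    ∀ z, ‖u z - u (-z)‖ ≤ C * (|z| / (1 + z ^ 2)) := by
  have h0 : 0 < (u 0).re := sch0 γ
  obtain ⟨ρ, r0, hρ⟩ := Metric.nhds_basis_closedBall.eventually_iff.1
    ((continuous_re.comp u.continuous).continuousAt.eventually (le_mem_nhds (half_lt_self h0)))
  obtain ⟨C, C0, hC⟩ := u.decay 0 1
  obtain ⟨D, D0, hD⟩ := u.decay 1 0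
  refine ⟨_, half_pos h0, min ρ 1, by positivity, min_le_right _ _, 2 * C + 2 * D, by positivity,
    fun z hz => hρ (by simpa using hz.trans (min_le_left _ _)), fun z => ?_⟩
  have a := convex_univ.norm_image_sub_le_of_norm_fderiv_le (𝕜 := ℝ) (f := u) (C := C)
    (fun x _ => u.differentiableAt) (fun x _ => by simpa [norm_iteratedFDeriv_one] using hC x)
    (mem_univ (-z)) (mem_univ z)
  have b1 := hD z
  have b2 := hD (-z)
  simp only [pow_one, norm_iteratedFDeriv_zero, norm_neg, Real.norm_eq_abs] at b1 b2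
  rw [sub_neg_eq_add, ← two_mul, norm_mul, Real.norm_eq_abs z, Real.norm_two] at a
  have b : |z| * ‖u z - u (-z)‖ ≤ 2 * D := by nlinarith [norm_sub_le (u z) (u (-z)), abs_nonneg z]
  rw [← mul_div_assoc, le_div_iff₀ (by positivity), ← sq_abs z]
  nlinarith [abs_nonneg z]

lemma tele (N : ℕ) {c : ℝ} (hc : 0 ≤ c) :
    ∑ k ∈ Finset.range N, c / 2 ^ (k + 1) / (1 + (c / 2 ^ (k + 1)) ^ 2) ≤ 4 := by
  have : ∀ k : ℕ, c / 2 ^ (k + 1) / (1 + (c / 2 ^ (k + 1)) ^ 2) ≤
      4 / (1 + c / 2 ^ (k + 1)) - 4 / (1 + c / 2 ^ k) := fun k => by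
    rw [show c / 2 ^ k = 2 * (c / 2 ^ (k + 1)) by ring]
    have : 0 ≤ c / 2 ^ (k + 1) := by positivity
    generalize c / 2 ^ (k + 1) = x at *
    rw [div_sub_div _ _ (by positivity) (by positivity), div_le_div_iff₀ (by positivity) (by positivity)]
    nlinarith [mul_nonneg this (sq_nonneg (x - 1)), mul_nonneg this (sq_nonneg x)]
  refine (Finset.sum_le_sum fun k _ => this k).trans ?_
  rw [Finset.sum_range_sub fun k => 4 / (1 + c / 2 ^ k)]
  have : 4 / (1 + c / 2 ^ N) ≤ 4 := div_le_self (by norm_num) (by simp; positivity)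
  have : 0 ≤ 4 / (1 + c / 2 ^ 0) := by positivity
  linarith

noncomputable def φ (x : E) : ℝ := (Icc (-1 : ℝ) 1).indicator 1 (x 0)

lemma φ1 (x : E) : 0 ≤ φ x ∧ φ x ≤ 1 := by
  unfold φ indicator; split_ifs <;> simp

lemma Mφ {x : E} (hx : x 0 ≠ 0) : M0 φ x ≤ ENNReal.ofReal (6 / |x 0|) := by
  have x0 := abs_pos.2 hx
  refine iSup₂_le fun w _ => iSup₂_le fun r hr => ?_
  have key : ∀ T : Set ℝ, (∀ s ∈ Ioc 0 r, φ (x - s • w) ≠ 0 → s ∈ T) → MeasurableSet T → ∀ m, 0 ≤ m →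
      volume T ≤ ENNReal.ofReal m → 2 * m / r ≤ 6 / |x 0| → ENNReal.ofReal (2 / r ^ 2) *
        ∫⁻ s in Ioc (0 : ℝ) r, ENNReal.ofReal (φ (x - s • w) * s) ≤ ENNReal.ofReal (6 / |x 0|) :=
    fun T h mT m m0 h1 h2 => by
      have : ∫⁻ s in Ioc (0 : ℝ) r, ENNReal.ofReal (φ (x - s • w) * s) ≤ ENNReal.ofReal (r * m) := by
        refine (setLIntegral_mono' measurableSet_Ioc (g := T.indicator fun _ => ENNReal.ofReal r)
          fun s hs => ?_).trans ((setLIntegral_le_lintegral _ _).trans ?_)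
        · by_cases k : s ∈ T
          · rw [indicator_of_mem k]
            exact ENNReal.ofReal_le_ofReal ((mul_le_of_le_one_left hs.1.le (φ1 _).2).trans hs.2)
          · rw [by_contra fun j => k (h s hs j)]; simp
        · rw [lintegral_indicator_const mT, ENNReal.ofReal_mul hr.le]; gcongr
      refine (mul_le_mul_right this _).trans ?_
      rw [← ENNReal.ofReal_mul (by positivity)]
      exact ENNReal.ofReal_le_ofReal (le_trans (le_of_eq (by field_simp)) h2)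
  rcases le_total |x 0| 3 with h | h
  · refine key _ (fun s hs _ => hs) measurableSet_Ioc r hr.le (by simp) ?_
    rw [mul_div_cancel_right₀ _ hr.ne', le_div_iff₀ x0]; linarith
  have m : ∀ s, φ (x - s • w) ≠ 0 → |x 0 - s * w 0| ≤ 1 := fun s k =>
    abs_le.2 (by simpa using mem_of_indicator_ne_zero k)
  by_cases e : |x 0| - 1 ≤ r * |w 0|
  · have w0 : 0 < |w 0| := by nlinarith [abs_nonneg (w 0)]
    refine key (closedBall (x 0 / w 0) (1 / |w 0|)) (fun s _ k => ?_) measurableSet_closedBall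
      (2 * (1 / |w 0|)) (by positivity) (by simp) ?_
    · rw [mem_closedBall, Real.dist_eq, le_div_iff₀ w0, ← abs_mul, sub_mul,
        div_mul_cancel₀ _ (abs_pos.1 w0), abs_sub_comm]
      exact m s k
    · rw [div_le_div_iff₀ hr x0]; field_simp; nlinarith
  · refine key ∅ (fun s hs k => e ?_) .empty 0 le_rfl (by simp) (by simp; positivity)
    have := abs_sub_abs_le_abs_sub (x 0) (s * w 0)
    rw [abs_mul, abs_of_pos hs.1] at this
    nlinarith [m s k, hs.2, abs_nonneg (w 0)]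

theorem result : ¬ ∃ K : NNReal, ∀ (f : 𝓢(E, ℂ)) (φ : E → ℝ), (∀ x, 0 ≤ φ x) → LocallyIntegrable φ →
    ∫⁻ x, ENNReal.ofReal (‖S0 f x‖ ^ 2 * φ x) ≤ K * ∫⁻ x, ENNReal.ofReal (‖f x‖ ^ 2) * M0 φ x := by
  rintro ⟨K, H⟩
  obtain ⟨κ, κ0, ρ, ρ0, ρ1, C, C0, h1, h2⟩ := ub
  obtain ⟨N, hN⟩ := exists_nat_gt (K * (24 * C ^ 2 * π) / (2 * κ ^ 2))
  let s : ℕ → ℝ := fun k => ρ / 2 ^ (k + 1)
  have s0 : ∀ k, 0 < s k := fun k => by positivity
  have s1 : ∀ k, s k ≤ ρ := fun k => div_le_self ρ0.le (one_le_pow₀ one_le_two)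
  have s2 : ∀ k < N, s N ≤ s k := fun k hk => by simp only [s]; gcongr; norm_num
  let β : ContDiffBump (0 : ℝ) := ⟨s N / 4, s N / 2, by have := s0 N; positivity, by linarith [s0 N]⟩
  have β0 : ∀ t, sch β t ≠ 0 → |t| < s N / 2 := fun t h => by
    have : t ∈ ball (0 : ℝ) β.rOut := by
      rw [← β.support_eq]; exact fun k => h (by simp [sch_apply, k])
    simpa using this
  let a : (ℕ → ℝ) → ℝ → ℂ := fun s t => ∑ k ∈ Finset.range N, A (s k) t
  have a0 : ∀ s t, a s t ≠ 0 → ∃ k < N, A (s k) t ≠ 0 := fun s t h => by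
    obtain ⟨k, k1, k2⟩ := Finset.exists_ne_zero_of_sum_ne_zero h
    exact ⟨k, Finset.mem_range.1 k1, k2⟩
  have as : ∀ s, ContDiff ℝ ∞ (a s) := fun s => ContDiff.sum fun k _ => As _
  have p1 : ∀ k, s k ≠ 0 ∧ |s k| ≤ 1 := fun k => ⟨(s0 k).ne', (abs_of_pos (s0 k)).trans_le ((s1 k).trans ρ1)⟩
  have p2 : ∀ k, (-s) k ≠ 0 ∧ |(-s) k| ≤ 1 := fun k => by simpa using p1 k
  have nq : ∀ ξ : E, ‖ξ‖ ^ 2 = ξ 0 ^ 2 + ξ 1 ^ 2 := fun ξ => by simp [EuclideanSpace.norm_sq_eq]
  let F : 𝓢(E, ℂ) := HasCompactSupport.toSchwartzMap (f := fun ξ => (a s (ξ 0) - a (-s) (ξ 0)) * sch β (ξ 1))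
    (HasCompactSupport.intro (isCompact_closedBall 0 3) fun ξ hξ => by
      by_contra k
      have b := abs_lt.1 (β0 _ (right_ne_zero_of_mul k))
      have c : ξ 0 ∈ Icc (0 : ℝ) 2 := by
        by_cases j : a s (ξ 0) = 0
        · obtain ⟨k, -, k2⟩ := a0 (-s) (ξ 0) fun i => k (by simp [i, j])
          exact A1 k2 (p2 k).2
        · obtain ⟨k, -, k2⟩ := a0 s (ξ 0) j
          exact A1 k2 (p1 k).2
      refine hξ (mem_closedBall_zero_iff.2 (abs_le_of_sq_le_sq' ?_ (by norm_num)).2)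
      rw [nq]; nlinarith [c.1, c.2, s1 N])
    ((((as s).sub (as (-s))).comp (EuclideanSpace.proj (𝕜 := ℝ) (0 : Fin 2)).contDiff).mul
      (((sch β).smooth ⊤).comp (EuclideanSpace.proj (𝕜 := ℝ) (1 : Fin 2)).contDiff))
  set b : 𝓢(ℝ, ℂ) := 𝓕⁻ (sch β) with hb
  have e0 : ∀ y : ℝ, ‖exp (2 * π * y * I)‖ = 1 := fun y => by simpa using norm_exp_ofReal_mul_I (2 * π * y)
  have e1 : ∀ x : E, ‖S0 (𝓕⁻ F : 𝓢(E, ℂ)) x‖ = ‖∑ k ∈ Finset.range N, u (s k * x 0)‖ * ‖b (x 1)‖ := fun x => by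
    have : (ball (0 : E) 1).indicator F = fun ξ => a s (ξ 0) * sch β (ξ 1) := by
      ext ξ
      by_cases k : ξ ∈ ball (0 : E) 1
      · have : a (-s) (ξ 0) = 0 := by_contra fun j => by
          obtain ⟨i, -, i2⟩ := a0 _ _ j
          have := (A0 i2).2
          rw [div_lt_iff_of_neg (by simpa using s0 i), Pi.neg_apply] at this
          have := (le_abs_self _).trans (PiLp.norm_apply_le ξ 0)
          linarith [mem_ball_zero_iff.1 k, s0 i]
        rw [indicator_of_mem k, show F ξ = (a s (ξ 0) - a (-s) (ξ 0)) * sch β (ξ 1) from rfl, this, sub_zero]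
      · rw [indicator_of_notMem k]
        refine Eq.symm (by_contra fun j => k ?_)
        obtain ⟨i, i1, i2⟩ := a0 _ _ (left_ne_zero_of_mul j)
        obtain ⟨q1, q2⟩ := A0 i2
        rw [lt_div_iff₀ (s0 i)] at q1
        rw [div_lt_iff₀ (s0 i)] at q2
        have b := abs_lt.1 (β0 _ (right_ne_zero_of_mul j))
        refine mem_ball_zero_iff.2 (lt_of_pow_lt_pow_left₀ 2 zero_le_one ?_)
        rw [nq]; nlinarith [s0 i, s1 i, s2 i i1, s0 N]
    rw [S0, ← SchwartzMap.fourier_coe, fourier_fourierInv_eq, this, fprod, FA N s p1, norm_mul, norm_mul, e0,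
      one_mul, hb, SchwartzMap.fourierInv_coe]
  have e2 : ∀ x : E, ‖(𝓕⁻ F : 𝓢(E, ℂ)) x‖ =
      ‖∑ k ∈ Finset.range N, (u (s k * x 0) - u (-(s k * x 0)))‖ * ‖b (x 1)‖ := fun x => by
    have : 𝓕⁻ (fun t => a s t - a (-s) t) (x 0) = 𝓕⁻ (a s) (x 0) - 𝓕⁻ (a (-s)) (x 0) := by
      have i : ∀ s : ℕ → ℝ, (∀ k, s k ≠ 0 ∧ |s k| ≤ 1) → Integrable fun t : ℝ =>
          exp ((2 * π * inner ℝ t (x 0) : ℝ) * I) • a s t := fun s p =>
        Continuous.integrable_of_hasCompactSupport (by have := (as s).continuous; fun_prop)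
          (HasCompactSupport.intro isCompact_Icc (K := Icc 0 2) fun t ht => by
            rw [by_contra fun j => (a0 s t j).elim fun k k1 => ht (A1 k1.2 (p k).2), smul_zero])
      simp only [Real.fourierInv_eq', smul_sub]
      exact integral_sub (i s p1) (i _ p2)
    rw [SchwartzMap.fourierInv_coe, show (F : E → ℂ) = fun ξ => (a s (ξ 0) - a (-s) (ξ 0)) * sch β (ξ 1)
      from rfl, fprod (fun t => a s t - a (-s) t), this, FA N s p1, FA N _ p2, ← mul_sub, norm_mul, norm_mul,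
      e0, one_mul, hb, SchwartzMap.fourierInv_coe, Finset.sum_sub_distrib]
    simp
  have mφ : Measurable φ := (measurable_const.indicator measurableSet_Icc).comp (by fun_prop)
  have := H (𝓕⁻ F) φ (fun x => (φ1 x).1) ((memLp_top_of_bound mφ.aestronglyMeasurable 1 (.of_forall fun x => by
    rw [Real.norm_of_nonneg (φ1 x).1]; exact (φ1 x).2)).locallyIntegrable le_top)
  have mb : Measurable fun y => ENNReal.ofReal (‖b y‖ ^ 2) := by have := b.continuous; fun_prop
  set B := ∫⁻ y, ENNReal.ofReal (‖b y‖ ^ 2)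
  have B0 : B ≠ 0 := fun k => by
    have := (Continuous.ae_eq_iff_eq volume (ENNReal.continuous_ofReal.comp (b.continuous.norm.pow 2))
      continuous_zero).1 ((lintegral_eq_zero_iff mb).1 k)
    have h := congrFun this 0
    have := sch0 β
    simp at h
    simp [← hb, h] at this
  have B1 : B ≠ ⊤ := ((b.memLp 2).integrable_norm_pow two_ne_zero).lintegral_lt_top.ne
  have lo : ENNReal.ofReal (2 * (N * κ) ^ 2) * B ≤
      ∫⁻ x, ENNReal.ofReal (‖S0 (𝓕⁻ F : 𝓢(E, ℂ)) x‖ ^ 2 * φ x) := by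
    refine le_trans (le_of_eq ?_) ((lprod ((measurable_const (a := ENNReal.ofReal ((N * κ) ^ 2))).indicator
      (measurableSet_Icc (a := (-1 : ℝ)) (b := 1))) mb).symm.trans_le (lintegral_mono fun x => ?_))
    · rw [lintegral_indicator_const measurableSet_Icc, Real.volume_Icc, ← ENNReal.ofReal_mul (by positivity)]
      congr 2; ring
    by_cases k : x 0 ∈ Icc (-1 : ℝ) 1
    · simp only [indicator_of_mem k, φ, Pi.one_apply, mul_one, e1]
      rw [← ENNReal.ofReal_mul (by positivity), mul_pow ‖_‖]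
      gcongr
      refine le_trans ?_ (re_le_norm _)
      rw [re_sum]
      simpa using Finset.card_nsmul_le_sum (Finset.range N) _ κ fun k' _ => h1 (s k' * x 0) (by
        rw [abs_mul, abs_of_pos (s0 _)]
        exact (mul_le_of_le_one_right (s0 _).le (abs_le.2 k)).trans (s1 _))
    · simp [k]
  have i1 : ∀ k, Integrable fun y => 24 * C ^ 2 * (s k * (1 + (s k * y) ^ 2)⁻¹) := fun k =>
    ((integrable_inv_one_add_sq.comp_mul_left' (s0 k).ne').const_mul _).const_mul _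
  have up : ∫⁻ x, ENNReal.ofReal (‖(𝓕⁻ F : 𝓢(E, ℂ)) x‖ ^ 2) * M0 φ x ≤
      ENNReal.ofReal (N * (24 * C ^ 2 * π)) * B := by
    refine le_trans (lintegral_mono fun x => ?_) ((lprod (g := fun y => ENNReal.ofReal
      (∑ k ∈ Finset.range N, 24 * C ^ 2 * (s k * (1 + (s k * y) ^ 2)⁻¹))) (by fun_prop) mb).trans_le ?_)
    · by_cases k : x 0 = 0
      · simp [e2, k]
      have x0 := abs_pos.2 k
      refine (mul_le_mul_right (Mφ k) _).trans ?_
      have := s0
      rw [← ENNReal.ofReal_mul (by positivity), ← ENNReal.ofReal_mul (Finset.sum_nonneg fun j _ => by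
        have := s0 j; positivity), e2, mul_pow, mul_right_comm]
      gcongr
      have t1 := (norm_sum_le _ _).trans (Finset.sum_le_sum (s := Finset.range N) fun j _ => h2 (s j * x 0))
      have t2 := tele N (c := ρ * |x 0|) (by positivity)
      have t3 : ∀ j, |s j * x 0| / (1 + (s j * x 0) ^ 2) =
          ρ * |x 0| / 2 ^ (j + 1) / (1 + (ρ * |x 0| / 2 ^ (j + 1)) ^ 2) := fun j => by
        rw [← sq_abs, abs_mul, abs_of_pos (s0 j)]; simp only [s]; ring
      rw [← Finset.mul_sum] at t1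
      simp only [← t3] at t2
      have t4 : ∑ j ∈ Finset.range N, 24 * C ^ 2 * (s j * (1 + (s j * x 0) ^ 2)⁻¹) =
          (C * 4) * (C * ∑ j ∈ Finset.range N, |s j * x 0| / (1 + (s j * x 0) ^ 2)) * (6 / |x 0|) := by
        simp only [Finset.mul_sum, Finset.sum_mul]
        refine Finset.sum_congr rfl fun j _ => ?_
        rw [abs_mul, abs_of_pos (s0 j)]; field_simp; ring
      rw [t4, sq]
      gcongr
      exact t1.trans (by gcongr)
    · rw [← ofReal_integral_eq_lintegral_ofReal (integrable_finsetSum _ fun k _ => i1 k) (.of_forall fun y =>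
        Finset.sum_nonneg fun j _ => by have := s0 j; positivity), integral_finsetSum _ fun k _ => i1 k]
      refine le_of_eq ?_
      congr 2
      rw [← nsmul_eq_mul, ← Finset.card_range N, ← Finset.sum_const, Finset.card_range]
      refine Finset.sum_congr rfl fun j _ => ?_
      rw [integral_const_mul, integral_const_mul, Measure.integral_comp_mul_left (fun y => (1 + y ^ 2)⁻¹),
        integral_univ_inv_one_add_sq, abs_of_pos (inv_pos.2 (s0 j)), smul_eq_mul, mul_inv_cancel_left₀ (s0 j).ne']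
  have fin := (lo.trans this).trans (mul_le_mul_right up _)
  rw [← mul_assoc, ENNReal.mul_le_mul_iff_left B0 B1, ← ENNReal.ofReal_coe_nnreal,
    ← ENNReal.ofReal_mul K.coe_nonneg, ENNReal.ofReal_le_ofReal_iff (by positivity)] at fin
  rw [div_lt_iff₀ (by positivity)] at hN
  have : (0 : ℝ) < N := by
    by_contra j
    nlinarith [mul_nonneg K.coe_nonneg (by positivity : 0 ≤ 24 * C ^ 2 * π), sq_pos_of_pos κ0]
  nlinarith

end Pool.Agent.Results.MP_8ec070_an.Q2
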